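import Pool.Agent.H95.ND.Targets

/-!
# Dependence of the Fubini condition
-/

open MeasureTheory ProbabilityTheory
open scoped ENNReal

namespace Pool.Agent.H58.PD

open Pool.Agent.H99.NS Pool.Agent.H22.LPP Pool.Agent.H95.INS Pool.Agent.H76.ND Pool.Agent.H95.ND

theorem wd_mono {D : Dat} {s t s' t' : ℤ} (h1 : s' ≤ s) (h2 : t ≤ t') :
    Wd D s t ⊆ Wd D s' t' := fun _ hx => ⟨lt_of_le_of_lt h1 hx.1, hx.2.1.trans h2, hx.2.2⟩

theorem depOn_not {A : Set Site} {E : Env → Prop} (h : DepOn A E) :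
    DepOn A (fun ω => ¬ E ω) := fun ω ω' hh => by
  simp only [h ω ω' hh]

theorem pin_congr {c : Cst} {Xc : ℤ} {k : ℕ} {out out' : Env}
    (h : ∀ x ∈ Ann c.A k, out x = out' x) {E : Env → Prop}
    (hE : DepOn (Wd (dk c Xc k) (-(4 * (dk c Xc k).n)) (4 * (dk c Xc k).n)) E) :
    Pin (dk c Xc k) out E = Pin (dk c Xc k) out' E := by
  unfold Pin
  have : {ω | E (splice (Bx (dk c Xc k)) ω out)} = {ω | E (splice (Bx (dk c Xc k)) ω out')} := by
    ext ω
    simp only [Set.mem_ofPred_eq]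
    refine iff_of_eq (hE _ _ fun x hx => ?_)
    by_cases hb : x ∈ Bx (dk c Xc k)
    · rw [splice_of_mem _ _ hb, splice_of_mem _ _ hb]
    · rw [splice_of_not_mem _ _ hb, splice_of_not_mem _ _ hb]
      apply h
      obtain ⟨h1, h2, h3⟩ := hx
      have e1 : 4 * (dk c Xc k).n = lv k := by
        show 4 * (8 * 64 ^ (k - 1)) = 32 * 64 ^ (k - 1)
        ring
      rw [e1] at h1 h2
      refine ⟨h1, h2, ?_, h3⟩
      by_contra hlt
      apply hb
      refine ⟨by rw [e1]; exact h1, by rw [e1]; exact h2, ?_⟩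
      exact not_le.1 hlt
  rw [this]

theorem ann_finite (A : ℤ) (k : ℕ) : (Ann A k).Finite := by
  refine Set.Finite.subset (Finset.finite_toSet
    (Finset.Icc ((-lv k, -(16 * A * 16 ^ k)) : Site) (lv k, 16 * A * 16 ^ k))) ?_
  rintro x ⟨h1, h2, _, h4⟩
  rw [abs_lt] at h4
  rw [Finset.coe_Icc, Set.mem_Icc, Prod.le_def, Prod.le_def]
  exact ⟨⟨h1.le, h4.1.le⟩, h2, h4.2.le⟩

theorem pf_FCD (h1 : T_DEP) (h2 : T_FIM) : T_FCD := by
  intro c Xc k hk
  have hn : 0 ≤ (dk c Xc k).n := by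
    show (0 : ℤ) ≤ 8 * 64 ^ (k - 1)
    positivity
  have hU : ∀ s t cc, -(4 * (dk c Xc k).n) ≤ s → t ≤ 4 * (dk c Xc k).n →
      DepOn (Wd (dk c Xc k) (-(4 * (dk c Xc k).n)) (4 * (dk c Xc k).n))
        (fun ω => UB (dk c Xc k) ω s t cc) := fun s t cc hs ht =>
    ((h1 (dk c Xc k) s t cc 0 0).1).mono (wd_mono hs ht)
  have hN : ∀ s t cc, -(4 * (dk c Xc k).n) ≤ s → t ≤ 4 * (dk c Xc k).n →
      DepOn (Wd (dk c Xc k) (-(4 * (dk c Xc k).n)) (4 * (dk c Xc k).n))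
        (fun ω => ND (dk c Xc k) ω s t cc) := fun s t cc hs ht =>
    ((h1 (dk c Xc k) s t cc 0 0).2.1).mono (wd_mono hs ht)
  have hC : DepOn (Wd (dk c Xc k) (-(4 * (dk c Xc k).n)) (4 * (dk c Xc k).n))
        (fun ω => CU (dk c Xc k) ω) := (h1 (dk c Xc k) 0 0 0 0 0).2.2.1
  have hS : DepOn (Wd (dk c Xc k) (-(4 * (dk c Xc k).n)) (4 * (dk c Xc k).n))
        (fun ω => Sm (dk c Xc k) ω) := by
    intro ω ω' h
    have a1 := hU (-(4 * (dk c Xc k).n)) (-(3 * (dk c Xc k).n)) (1 / 1000)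
      (by omega) (by omega) ω ω' h
    have a2 := hU (-(2 * (dk c Xc k).n)) (2 * (dk c Xc k).n) (1 / 1000)
      (by omega) (by omega) ω ω' h
    have a3 := hU (3 * (dk c Xc k).n) (4 * (dk c Xc k).n) (1 / 1000)
      (by omega) (by omega) ω ω' h
    simp only [eq_iff_iff] at a1 a2 a3 ⊢
    exact ⟨fun hh => ⟨a1.1 hh.s1, a2.1 hh.s2, a3.1 hh.s3⟩,
      fun hh => ⟨a1.2 hh.s1, a2.2 hh.s2, a3.2 hh.s3⟩⟩
  have key : ∀ out out' : Env, (∀ x ∈ Ann c.A k, out x = out' x) → FC (dk c Xc k) out →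
      FC (dk c Xc k) out' := by
    intro out out' h hF
    have hp : ∀ {E : Env → Prop}, DepOn (Wd (dk c Xc k) (-(4 * (dk c Xc k).n))
        (4 * (dk c Xc k).n)) E → Pin (dk c Xc k) out E = Pin (dk c Xc k) out' E :=
      fun hE => pin_congr h hE
    refine ⟨?_, ?_, ?_, ?_, ?_, ?_⟩
    · rw [← hp (depOn_not (hU _ _ _ (by omega) (by omega)))]
      exact hF.u1
    · rw [← hp (depOn_not (hU _ _ _ (by omega) (by omega)))]
      exact hF.u2
    · rw [← hp (depOn_not (hN _ _ _ (by omega) (by omega)))]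
      exact hF.d1
    · rw [← hp (depOn_not (hN _ _ _ (by omega) (by omega)))]
      exact hF.d2
    · rw [← hp (depOn_not hS)]
      exact hF.sm
    · rw [← hp (depOn_not hC)]
      exact hF.cu
  have hD : DepOn (Ann c.A k) (fun ω => FC (dk c Xc k) ω) := by
    intro ω ω' h
    simp only [eq_iff_iff]
    exact ⟨key ω ω' h, key ω' ω fun x hx => (h x hx).symm⟩
  exact ⟨hD, ann_finite _ _, h2 _ _ (ann_finite _ _) hD⟩

end Pool.Agent.H58.PD
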