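import Pool.Agent.H95.ND.Targets

/-!
# Measurability and dependence of the norm events
-/

open MeasureTheory ProbabilityTheory
open scoped ENNReal

namespace Pool.Agent.H58.PD

open Pool.Agent.H99.NS Pool.Agent.H22.LPP Pool.Agent.H95.INS Pool.Agent.H76.ND Pool.Agent.H95.ND

/-- Measurable and depending only on the sites of `A`. -/
def MD (A : Set Site) (E : Env → Prop) : Prop := MeasurableSet {ω | E ω} ∧ DepOn A E

theorem md_all {ι : Type*} [Countable ι] {A : Set Site} {E : ι → Env → Prop}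
    (h : ∀ i, MD A (E i)) : MD A (fun ω => ∀ i, E i ω) := by
  constructor
  · have : {ω | ∀ i, E i ω} = ⋂ i, {ω | E i ω} := by
      ext ω
      simp only [Set.mem_iInter, Set.mem_ofPred_eq]
    rw [this]
    exact MeasurableSet.iInter fun i => (h i).1
  · intro ω ω' hh
    simp only [eq_iff_iff]
    exact forall_congr' fun i => iff_of_eq ((h i).2 ω ω' hh)

theorem md_ex {ι : Type*} [Countable ι] {A : Set Site} {E : ι → Env → Prop}
    (h : ∀ i, MD A (E i)) : MD A (fun ω => ∃ i, E i ω) := by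
  constructor
  · have : {ω | ∃ i, E i ω} = ⋃ i, {ω | E i ω} := by
      ext ω
      simp only [Set.mem_iUnion, Set.mem_ofPred_eq]
    rw [this]
    exact MeasurableSet.iUnion fun i => (h i).1
  · intro ω ω' hh
    simp only [eq_iff_iff]
    exact exists_congr fun i => iff_of_eq ((h i).2 ω ω' hh)

theorem md_imp {p : Prop} {A : Set Site} {E : Env → Prop} (h : p → MD A E) :
    MD A (fun ω => p → E ω) := by
  by_cases hp : p
  · have : (fun ω => p → E ω) = E := by
      funext ω
      simp only [hp, true_imp_iff]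
    rw [this]
    exact h hp
  · have : (fun ω => p → E ω) = fun _ => True := by
      funext ω
      simp only [hp, false_imp_iff]
    rw [this]
    exact ⟨MeasurableSet.univ, fun _ _ _ => rfl⟩

theorem md_and {A : Set Site} {E F : Env → Prop} (h : MD A E) (h' : MD A F) :
    MD A (fun ω => E ω ∧ F ω) := by
  constructor
  · exact h.1.inter h'.1
  · intro ω ω' hh
    simp only [eq_iff_iff]
    exact and_congr (iff_of_eq (h.2 ω ω' hh)) (iff_of_eq (h'.2 ω ω' hh))

theorem md_pand {p : Prop} {A : Set Site} {E : Env → Prop} (h : p → MD A E) :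
    MD A (fun ω => p ∧ E ω) := by
  by_cases hp : p
  · have : (fun ω => p ∧ E ω) = E := by
      funext ω
      simp only [hp, true_and]
    rw [this]
    exact h hp
  · have : (fun ω => p ∧ E ω) = fun _ => False := by
      funext ω
      simp only [hp, false_and]
    rw [this]
    exact ⟨MeasurableSet.empty, fun _ _ _ => rfl⟩

theorem md_mono {A B : Set Site} {E : Env → Prop} (h : MD A E) (hAB : A ⊆ B) : MD B E :=
  ⟨h.1, h.2.mono hAB⟩

theorem md_congr {A : Set Site} {E F : Env → Prop} (h : ∀ ω, E ω ↔ F ω) (hE : MD A E) :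
    MD A F := by
  have : E = F := funext fun ω => propext (h ω)
  rw [← this]
  exact hE

theorem md_T_le {s t : ℤ} {u v : Site} (h1 : s ≤ u.1) (h2 : v.1 ≤ t) (c : ℝ) :
    MD (slab s t) (fun ω => T ω u v ≤ c) := by
  constructor
  · exact measurableSet_le (measurable_T u v) measurable_const
  · intro ω ω' hh
    have := depOn_T_slab h1 h2 ω ω' hh
    simp only at this
    simp only [this]

theorem md_le_T {s t : ℤ} {u v : Site} (h1 : s ≤ u.1) (h2 : v.1 ≤ t) (c : ℝ) :
    MD (slab s t) (fun ω => c ≤ T ω u v) := by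
  constructor
  · exact measurableSet_le measurable_const (measurable_T u v)
  · intro ω ω' hh
    have := depOn_T_slab h1 h2 ω ω' hh
    simp only at this
    simp only [this]

theorem ul_iff (ω : Env) (q K0 : ℝ) (j i : ℕ) (s t : ℤ) :
    (∀ s' t' x y : ℤ, s ≤ s' → s' ≤ t' → t' ≤ t → Reach (s', x) (t', y) →
      T ω (s', x) (t', y) ≤ mu q * ((t' - s' : ℤ) : ℝ) -
        sg q / 2 * ((y - x : ℤ) : ℝ) ^ 2 / (((t' - s' : ℤ) : ℝ) + 64 ^ i / 1000) +
        al K0 j i (max |(x : ℝ)| |(y : ℝ)|)) ↔ UL (fwd ω) q K0 j i s t := by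
  constructor
  · intro h s' t' g h1 h2 h3 hg
    have hc : Conn (s', g s') (t', g t') g := ⟨hg, rfl, rfl⟩
    have h4 := h s' t' (g s') (g t') h1 h2 h3 (hc.reach h2)
    have h5 := le_T ω (u := (s', g s')) (v := (t', g t')) h2 hc
    unfold sp
    exact h5.trans h4
  · intro h s' t' x y h1 h2 h3 hr
    refine T_le ω hr fun γ hγ => ?_
    obtain ⟨hg, hx, hy⟩ := hγ
    have h4 := h s' t' γ h1 h2 h3 hg
    unfold sp at h4
    simp only at hx hy
    rw [hx, hy] at h4
    exact h4

theorem md_UL (q K0 : ℝ) (j i : ℕ) (s t : ℤ) :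
    MD (slab s t) (fun ω => UL (fwd ω) q K0 j i s t) := by
  refine md_congr (fun ω => ul_iff ω q K0 j i s t) ?_
  refine md_all fun s' => md_all fun t' => md_all fun x => md_all fun y => ?_
  refine md_imp fun h1 => md_imp fun _ => md_imp fun h3 => md_imp fun _ => ?_
  exact md_T_le h1 h3 _

theorem md_LL (q K0 : ℝ) (Xc : ℤ) (k i : ℕ) (s t : ℤ) :
    MD (slab s t) (fun ω => LL (fwd ω) q K0 Xc k i s t) := by
  unfold LL
  refine md_all fun x => md_all fun y => ?_
  refine md_imp fun _ => md_imp fun _ => md_imp fun _ => md_imp fun _ => ?_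
  exact md_le_T le_rfl le_rfl _

theorem md_IL (q K0 : ℝ) (Xc : ℤ) (k a : ℕ) :
    MD (slab (-lv a) (lv a)) (fun ω => IL (fwd ω) q K0 Xc k a) := by
  unfold IL
  refine md_all fun u => md_imp fun _ => md_imp fun h2 => md_imp fun _ => ?_
  refine md_ex fun y => md_pand fun _ => md_pand fun _ => ?_
  exact md_le_T le_rfl h2 _

theorem md_IR (q K0 : ℝ) (Xc : ℤ) (k a : ℕ) :
    MD (slab (-lv a) (lv a)) (fun ω => IL (bwd ω) q K0 Xc k a) := by
  unfold IL
  refine md_all fun u => md_imp fun h1 => md_imp fun h2 => md_imp fun _ => ?_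
  refine md_ex fun y => md_pand fun _ => md_pand fun _ => ?_
  refine md_le_T (u := rev u) (v := rev (-lv a, y)) ?_ ?_ _
  · simp only [rev]
    omega
  · simp only [rev, neg_neg]
    exact le_rfl

theorem pf_NMM : T_NMM := by
  intro q K0 Xc a j i _ _
  have s1 : slab (-lv (i + 1)) (-lv i) ⊆ LS a i := fun x hx => Or.inl hx
  have s2 : slab (lv i) (lv (i + 1)) ⊆ LS a i := fun x hx => Or.inr (Or.inl hx)
  have s3 : i = a → slab (-lv a) (lv a) ⊆ LS a i := fun h x hx => Or.inr (Or.inr ⟨h, hx.1, hx.2⟩)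
  have key : MD (LS a i) (fun ω => Nm q K0 Xc a j i ω) := by
    refine md_congr (E := fun ω =>
      UL (fwd ω) q K0 j i (-lv (i + 1)) (-lv i) ∧
      UL (fwd ω) q K0 j i (lv i) (lv (i + 1)) ∧
      LL (fwd ω) q K0 Xc j i (-lv (i + 1)) (-lv i) ∧
      LL (fwd ω) q K0 Xc j i (lv i) (lv (i + 1)) ∧
      (i = a → UL (fwd ω) q K0 j a (-lv a) (lv a)) ∧
      (i = a → LL (fwd ω) q K0 Xc j a (-lv a) (lv a)) ∧
      (i = a → IL (fwd ω) q K0 Xc j a) ∧
      (i = a → IL (bwd ω) q K0 Xc j a)) ?_ ?_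
    · intro ω
      exact ⟨fun ⟨h1, h2, h3, h4, h5, h6, h7, h8⟩ => ⟨h1, h2, h3, h4, h5, h6, h7, h8⟩,
        fun ⟨h1, h2, h3, h4, h5, h6, h7, h8⟩ => ⟨h1, h2, h3, h4, h5, h6, h7, h8⟩⟩
    · refine md_and (md_mono (md_UL _ _ _ _ _ _) s1) ?_
      refine md_and (md_mono (md_UL _ _ _ _ _ _) s2) ?_
      refine md_and (md_mono (md_LL _ _ _ _ _ _ _) s1) ?_
      refine md_and (md_mono (md_LL _ _ _ _ _ _ _) s2) ?_
      refine md_and (md_imp fun h => md_mono (md_UL _ _ _ _ _ _) (s3 h)) ?_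
      refine md_and (md_imp fun h => md_mono (md_LL _ _ _ _ _ _ _) (s3 h)) ?_
      refine md_and (md_imp fun h => md_mono (md_IL _ _ _ _ _) (s3 h)) ?_
      exact md_imp fun h => md_mono (md_IR _ _ _ _ _) (s3 h)
  exact key

end Pool.Agent.H58.PD
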