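import Pool.Agent.H95.ND.Targets

/-!
# Sum over the windows of the failures of the global Fubini condition
-/

open MeasureTheory ProbabilityTheory
open scoped ENNReal

namespace Pool.Agent.H58.PD

open Pool.Agent.H99.NS Pool.Agent.H22.LPP Pool.Agent.H95.INS Pool.Agent.H76.ND Pool.Agent.H95.ND
open Pool.Agent.H97.NF (PEnv eA eB PN)

theorem exp_bd (c2 : ℝ) (hc : 0 < c2) : ∃ M : ℝ, 0 < M ∧ ∀ K : ℕ,
    ((2 * 64 ^ K + 1) * K : ℝ) * Real.exp (-Real.exp (c2 * K)) ≤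
      M * Real.exp (-Real.exp (c2 / 2 * K)) := by
  set A : ℝ := 130 / c2 with hA
  refine ⟨3 * Real.exp ((A + 1) ^ 2 / 4), by positivity, fun K => ?_⟩
  set u : ℝ := Real.exp (c2 / 2 * K) with hu
  have hu2 : Real.exp (c2 * K) = u * u := by
    rw [hu, ← Real.exp_add]
    congr 1
    ring
  have hu1 : c2 / 2 * K + 1 ≤ u := Real.add_one_le_exp _
  have hK : 65 * (K : ℝ) ≤ A * u := by
    have h1 : c2 / 2 * (K : ℝ) ≤ u := by linarith
    have h2 : 65 * (K : ℝ) = A * (c2 / 2 * K) := by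
      rw [hA]
      field_simp
      ring
    rw [h2]
    exact mul_le_mul_of_nonneg_left h1 (by positivity)
  have h64 : (64 : ℝ) ^ K ≤ Real.exp (64 * K) := by
    have h1 : (64 : ℝ) ≤ Real.exp 64 := by
      have := Real.add_one_le_exp (64 : ℝ)
      linarith
    calc (64 : ℝ) ^ K ≤ Real.exp 64 ^ K := pow_le_pow_left₀ (by norm_num) h1 K
      _ = Real.exp (64 * K) := by rw [← Real.exp_nat_mul]; congr 1; ring
  have hKe : (K : ℝ) ≤ Real.exp K := by
    have := Real.add_one_le_exp (K : ℝ)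
    linarith
  have h1' : (1 : ℝ) ≤ 64 ^ K := one_le_pow₀ (by norm_num)
  have h3 : ((2 * 64 ^ K + 1) * K : ℝ) ≤ 3 * Real.exp (65 * K) := by
    have e1 : Real.exp (65 * K) = Real.exp (64 * K) * Real.exp K := by
      rw [← Real.exp_add]
      congr 1
      ring
    rw [e1]
    calc ((2 * 64 ^ K + 1) * K : ℝ) ≤ (3 * 64 ^ K) * K :=
          mul_le_mul_of_nonneg_right (by linarith) (Nat.cast_nonneg _)
      _ ≤ (3 * Real.exp (64 * K)) * Real.exp K :=
          mul_le_mul (by linarith) hKe (Nat.cast_nonneg _) (by positivity)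
      _ = 3 * (Real.exp (64 * K) * Real.exp K) := by ring
  calc ((2 * 64 ^ K + 1) * K : ℝ) * Real.exp (-Real.exp (c2 * K))
      ≤ (3 * Real.exp (65 * K)) * Real.exp (-(u * u)) := by
        rw [hu2]
        exact mul_le_mul_of_nonneg_right h3 (Real.exp_pos _).le
    _ = 3 * Real.exp (65 * K + -(u * u)) := by rw [Real.exp_add]; ring
    _ ≤ 3 * Real.exp ((A + 1) ^ 2 / 4 + -u) := by
        have : 65 * (K : ℝ) + -(u * u) ≤ (A + 1) ^ 2 / 4 + -u := by
          nlinarith [sq_nonneg (u - (A + 1) / 2)]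
        have := Real.exp_le_exp.2 this
        linarith
    _ = 3 * Real.exp ((A + 1) ^ 2 / 4) * Real.exp (-u) := by rw [Real.exp_add]; ring

theorem win_disj {a : ℕ} {w w' x : ℤ} (h : x ∈ win a w) (h' : x ∈ win a w') : w = w' := by
  obtain ⟨h1, h2⟩ := h
  obtain ⟨h3, h4⟩ := h'
  have hP : (0 : ℤ) < 16 ^ a := by positivity
  have h5 : w < w' + 1 := lt_of_mul_lt_mul_right (h1.trans_lt h4) hP.le
  have h6 : w' < w + 1 := lt_of_mul_lt_mul_right (h3.trans_lt h2) hP.le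
  omega

theorem win_bd {a : ℕ} {w x B : ℤ} (hB : 0 ≤ B) (h : x ∈ win a w) (hx : |x| ≤ B) :
    -B - 1 ≤ w ∧ w ≤ B := by
  obtain ⟨h1, h2⟩ := h
  rw [abs_le] at hx
  have hP : (1 : ℤ) ≤ 16 ^ a := one_le_pow₀ (by norm_num)
  constructor
  · by_contra hh
    push Not at hh
    have : (w + 1) * 16 ^ a ≤ (w + 1) * 1 :=
      mul_le_mul_of_nonpos_left hP (by omega)
    omega
  · by_contra hh
    push Not at hh
    have : w * 1 ≤ w * 16 ^ a := mul_le_mul_of_nonneg_left hP (by omega)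
    omega

theorem reachK (K : ℕ) : Reach (oK K) (eK K) := by
  unfold Reach oK eK
  have h0 : 0 ≤ lv K := by unfold lv; positivity
  simp only
  refine ⟨?_, ?_⟩
  · rw [sub_self, abs_zero]
    omega
  · exact ⟨lv K, by ring⟩

theorem pf_RFS (h1 : T_RFP) : T_RFS := by
  intro hL hM q δ C₀ c k₀ p₀ hq0 hq1 hPK hRG
  obtain ⟨C1, c1, hC1, hc1, K1, hR1⟩ := hRG 1 one_pos
  obtain ⟨C2, c2, hC2, hc2, K2, hR2⟩ := h1 q δ C₀ c k₀ p₀ hq0 hq1 hPK hRG
  obtain ⟨M, hM0, hMb⟩ := exp_bd c2 hc2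
  refine ⟨C1 + C2 * M * 2, min c1 (c2 / 2), by positivity, lt_min hc1 (by positivity),
    max K1 K2, ?_⟩
  intro K a a1 j hK hKa haa ha1 hj ρ W
  have hK1 : K1 ≤ K := (le_max_left _ _).trans hK
  have hK2 : K2 ≤ K := (le_max_right _ _).trans hK
  set Lw : ℤ → Set Env := fun w => {ω | Lam ω (oK K) (eK K) j ∈ win a1 w} with hLw
  set B : Set Env := {ω | ¬ RGG (Xf K) a (-lv K) (lv K) (Lam ω (oK K) (eK K))} with hB
  set R : ℕ → ℤ → Set Env := fun k w => {ω | ¬ RF (dk c (Xf K) k) (shiftE (zc j a1 w) ω)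
    (oK K - zc j a1 w) (eK K - zc j a1 w)} with hR
  set b : ℝ≥0∞ := ENNReal.ofReal (C2 * Real.exp (-Real.exp (c2 * K))) with hb
  have hmeas : ∀ w, MeasurableSet (Lw w) := fun w =>
    (hM (oK K) (eK K) j).2.1 (MeasurableSet.of_discrete (s := win a1 w))
  have hlv : 0 ≤ lv K := by unfold lv; positivity
  -- the level is inside
  have hjlv : -lv K ≤ j ∧ j ≤ lv K := by
    rw [abs_le] at hj
    have h64 : (0 : ℤ) ≤ 64 ^ (K - 1) := by positivity
    have e : lv K = 32 * 64 ^ (K - 1) := rfl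
    constructor <;> linarith
  have hpos : ∀ ω, |Lam ω (oK K) (eK K) j| ≤ 64 ^ K := by
    intro ω
    have hg := (hL ω (oK K) (eK K) (reachK K)).1.1
    have h2 := path_lip hg.1 le_rfl (a := (oK K).1) (b := j) hjlv.1 hjlv.2
    rw [hg.2.1] at h2
    have h3 : |Lam ω (oK K) (eK K) j - 0| ≤ j - (-lv K) := h2.1
    rw [sub_zero] at h3
    have e : (64 : ℤ) ^ K = 2 * lv K := by
      unfold lv
      obtain ⟨m, rfl⟩ : ∃ m, K = m + 1 := ⟨K - 1, by omega⟩
      rw [Nat.add_sub_cancel, pow_succ]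
      ring
    rw [e]
    have := hjlv.2
    linarith
  -- bound of one term
  have hone : ∀ w ∈ W, PN q (ρ w) {E | Lam (eA E) (oK K) (eK K) j ∈ win a1 w ∧
      (¬ RGG (Xf K) a (-lv K) (lv K) (Lam (eA E) (oK K) (eK K)) ∨
        ∃ k, a1 ≤ k ∧ k + 2 ≤ K ∧ ¬ RF (dk c (Xf K) k) (shiftE (zc j a1 w) (eA E))
          (oK K - zc j a1 w) (eK K - zc j a1 w))} ≤
      PE q (Lw w ∩ B) +
        (if w ∈ Finset.Icc (-(64 : ℤ) ^ K - 1) (64 ^ K) then (K : ℝ≥0∞) * b else 0) := by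
    intro w _
    have e1 : {E : PEnv | Lam (eA E) (oK K) (eK K) j ∈ win a1 w ∧
      (¬ RGG (Xf K) a (-lv K) (lv K) (Lam (eA E) (oK K) (eK K)) ∨
        ∃ k, a1 ≤ k ∧ k + 2 ≤ K ∧ ¬ RF (dk c (Xf K) k) (shiftE (zc j a1 w) (eA E))
          (oK K - zc j a1 w) (eK K - zc j a1 w))} =
        eA ⁻¹' {ω | ω ∈ Lw w ∧ (ω ∈ B ∨ ∃ k, a1 ≤ k ∧ k + 2 ≤ K ∧ ω ∈ R k w)} := rfl
    rw [e1]
    have hmp := Pool.Agent.H97.NF.mp_eA q (ρ w)
    have e2 := Measure.le_map_apply (μ := PN q (ρ w)) hmp.measurable.aemeasurable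
      {ω | ω ∈ Lw w ∧ (ω ∈ B ∨ ∃ k, a1 ≤ k ∧ k + 2 ≤ K ∧ ω ∈ R k w)}
    rw [hmp.map_eq] at e2
    refine e2.trans ?_
    have e3 : {ω | ω ∈ Lw w ∧ (ω ∈ B ∨ ∃ k, a1 ≤ k ∧ k + 2 ≤ K ∧ ω ∈ R k w)} ⊆
        (Lw w ∩ B) ∪ {ω | ω ∈ Lw w ∧ ∃ k, a1 ≤ k ∧ k + 2 ≤ K ∧ ω ∈ R k w} := by
      rintro ω ⟨h3, h4 | h4⟩
      · exact Or.inl ⟨h3, h4⟩
      · exact Or.inr ⟨h3, h4⟩
    refine (measure_mono e3).trans ((measure_union_le _ _).trans ?_)
    refine add_le_add le_rfl ?_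
    split_ifs with hw
    · have e4 : {ω | ω ∈ Lw w ∧ ∃ k, a1 ≤ k ∧ k + 2 ≤ K ∧ ω ∈ R k w} ⊆
          ⋃ k ∈ Finset.range K, {ω | a1 ≤ k ∧ k + 2 ≤ K ∧ ω ∈ R k w} := by
        rintro ω ⟨_, k, h5, h6, h7⟩
        rw [Set.mem_iUnion₂]
        exact ⟨k, Finset.mem_range.2 (by omega), h5, h6, h7⟩
      refine (measure_mono e4).trans ((measure_biUnion_finset_le _ _).trans ?_)
      refine (Finset.sum_le_card_nsmul _ _ b fun k _ => ?_).trans ?_
      · by_cases h8 : a1 ≤ k ∧ k + 2 ≤ K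
        · refine (measure_mono ?_).trans (hR2 K a1 k w j hK2 (by omega) h8.1 h8.2 hj)
          rintro ω ⟨_, _, h9⟩
          exact h9
        · have : {ω | a1 ≤ k ∧ k + 2 ≤ K ∧ ω ∈ R k w} = ∅ := by
            ext ω
            simp only [Set.mem_ofPred_eq, Set.mem_empty_iff_false, iff_false]
            rintro ⟨h9, h10, _⟩
            exact h8 ⟨h9, h10⟩
          rw [this, measure_empty]
          exact bot_le
      · rw [Finset.card_range, nsmul_eq_mul]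
    · have : {ω | ω ∈ Lw w ∧ ∃ k, a1 ≤ k ∧ k + 2 ≤ K ∧ ω ∈ R k w} = ∅ := by
        ext ω
        simp only [Set.mem_ofPred_eq, Set.mem_empty_iff_false, iff_false]
        rintro ⟨h9, _⟩
        apply hw
        rw [Finset.mem_Icc]
        exact win_bd (by positivity) h9 (hpos ω)
      rw [this, measure_empty]
  refine (Finset.sum_le_sum hone).trans ?_
  rw [Finset.sum_add_distrib]
  -- first sum
  have hs1 : ∑ w ∈ W, PE q (Lw w ∩ B) ≤ ENNReal.ofReal (C1 * Real.exp (-Real.exp (c1 * K))) := by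
    have e1 : ∀ w ∈ W, PE q (Lw w ∩ B) = (PE q).restrict B (Lw w) := fun w _ =>
      (Measure.restrict_apply (hmeas w)).symm
    rw [Finset.sum_congr rfl e1, ← measure_biUnion_finset]
    · refine (measure_mono (Set.subset_univ _)).trans ?_
      rw [Measure.restrict_apply_univ]
      refine (measure_mono ?_).trans (hR1 K hK1)
      intro ω hω
      refine ⟨a, hKa, by omega, Lam ω (oK K) (eK K), ?_, hω⟩
      have hg := (hL ω (oK K) (eK K) (reachK K)).1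
      refine ⟨hg.1, ?_⟩
      rw [hg.2]
      have : (0 : ℝ) ≤ 1 * 4 ^ a := by positivity
      linarith
    · intro w _ w' _ hww
      rw [Function.onFun, Set.disjoint_left]
      intro ω h3 h4
      exact hww (win_disj h3 h4)
    · exact fun w _ => hmeas w
  -- second sum
  have hs2 : ∑ w ∈ W, (if w ∈ Finset.Icc (-(64 : ℤ) ^ K - 1) (64 ^ K) then (K : ℝ≥0∞) * b
      else 0) ≤ ENNReal.ofReal (C2 * M * 2 * Real.exp (-Real.exp (c2 / 2 * K))) := by
    rw [← Finset.sum_filter]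
    have e1 : (W.filter fun w => w ∈ Finset.Icc (-(64 : ℤ) ^ K - 1) (64 ^ K)) ⊆
        Finset.Icc (-(64 : ℤ) ^ K - 1) (64 ^ K) := by
      intro w hw
      exact (Finset.mem_filter.1 hw).2
    refine (Finset.sum_le_sum_of_subset e1).trans ?_
    rw [Finset.sum_const, nsmul_eq_mul, Int.card_Icc]
    have e2 : (((64 : ℤ) ^ K + 1 - (-(64 : ℤ) ^ K - 1)).toNat) = 2 * 64 ^ K + 2 := by
      have : (64 : ℤ) ^ K + 1 - (-(64 : ℤ) ^ K - 1) = ((2 * 64 ^ K + 2 : ℕ) : ℤ) := by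
        push_cast
        ring
      rw [this, Int.toNat_natCast]
    rw [e2]
    have e3 : ((2 * 64 ^ K + 2 : ℕ) : ℝ≥0∞) * ((K : ℝ≥0∞) * b) =
        ENNReal.ofReal (((2 * 64 ^ K + 2 : ℕ) : ℝ) * ((K : ℝ) *
          (C2 * Real.exp (-Real.exp (c2 * K))))) := by
      rw [ENNReal.ofReal_mul (Nat.cast_nonneg _), ENNReal.ofReal_mul (Nat.cast_nonneg _),
        ENNReal.ofReal_natCast, ENNReal.ofReal_natCast]
    rw [e3]
    apply ENNReal.ofReal_le_ofReal
    have h5 := hMb K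
    have h6 : (1 : ℝ) ≤ 64 ^ K := one_le_pow₀ (by norm_num)
    have h7 : ((2 * 64 ^ K + 2 : ℕ) : ℝ) ≤ 2 * (2 * 64 ^ K + 1) := by
      push_cast
      linarith
    have h8 : (0 : ℝ) ≤ (K : ℝ) * (C2 * Real.exp (-Real.exp (c2 * K))) := by positivity
    calc ((2 * 64 ^ K + 2 : ℕ) : ℝ) * ((K : ℝ) * (C2 * Real.exp (-Real.exp (c2 * K))))
        ≤ (2 * (2 * 64 ^ K + 1)) * ((K : ℝ) * (C2 * Real.exp (-Real.exp (c2 * K)))) :=
          mul_le_mul_of_nonneg_right h7 h8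
      _ = 2 * C2 * (((2 * 64 ^ K + 1) * K : ℝ) * Real.exp (-Real.exp (c2 * K))) := by ring
      _ ≤ 2 * C2 * (M * Real.exp (-Real.exp (c2 / 2 * K))) :=
          mul_le_mul_of_nonneg_left h5 (by positivity)
      _ = C2 * M * 2 * Real.exp (-Real.exp (c2 / 2 * K)) := by ring
  refine (add_le_add hs1 hs2).trans ?_
  rw [← ENNReal.ofReal_add (by positivity) (by positivity)]
  apply ENNReal.ofReal_le_ofReal
  have hKr : (0 : ℝ) ≤ K := Nat.cast_nonneg _
  have g1 : Real.exp (-Real.exp (c1 * K)) ≤ Real.exp (-Real.exp (min c1 (c2 / 2) * K)) := by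
    apply Real.exp_le_exp.2
    have : Real.exp (min c1 (c2 / 2) * K) ≤ Real.exp (c1 * K) :=
      Real.exp_le_exp.2 (mul_le_mul_of_nonneg_right (min_le_left _ _) hKr)
    linarith
  have g2 : Real.exp (-Real.exp (c2 / 2 * K)) ≤ Real.exp (-Real.exp (min c1 (c2 / 2) * K)) := by
    apply Real.exp_le_exp.2
    have : Real.exp (min c1 (c2 / 2) * K) ≤ Real.exp (c2 / 2 * K) :=
      Real.exp_le_exp.2 (mul_le_mul_of_nonneg_right (min_le_right _ _) hKr)
    linarith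
  have g3 := mul_le_mul_of_nonneg_left g1 hC1.le
  have g4 := mul_le_mul_of_nonneg_left g2 (show (0 : ℝ) ≤ C2 * M * 2 by positivity)
  calc C1 * Real.exp (-Real.exp (c1 * K)) + C2 * M * 2 * Real.exp (-Real.exp (c2 / 2 * K))
      ≤ C1 * Real.exp (-Real.exp (min c1 (c2 / 2) * K)) +
        C2 * M * 2 * Real.exp (-Real.exp (min c1 (c2 / 2) * K)) := add_le_add g3 g4
    _ = (C1 + C2 * M * 2) * Real.exp (-Real.exp (min c1 (c2 / 2) * K)) := by ring

end Pool.Agent.H58.PD
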